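import Mathlib
import Pool.Agent.Lib.MP_853269_co.Main

set_option autoImplicit false

namespace Pool.Agent.Results.MP_853269_co.Q2

/-- For every prime `p` and every set `A` of exactly `p` points in `F_p^3`, either `A` lies in an
affine plane, or the one-dimensional subspaces spanned by differences of distinct points of `A`
number at least `p + 2`. -/
theorem result :
    ∀ (p : ℕ), p.Prime → ∀ (A : Finset (Fin 3 → ZMod p)), A.card = p →
      (∃ v : Fin 3 → ZMod p, v ≠ 0 ∧ ∃ c : ZMod p, ∀ a ∈ A, ∑ i, v i * a i = c) ∨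
      p + 2 ≤ Set.ncard {W : Submodule (ZMod p) (Fin 3 → ZMod p) |
        ∃ a ∈ A, ∃ b ∈ A, a ≠ b ∧ W = Submodule.span (ZMod p) {a - b}} :=
  Pool.Agent.Lib.MP_853269_co.directions

end Pool.Agent.Results.MP_853269_co.Q2
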